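import Mathlib

/-!
# Transfinite diameter in metric spaces and mixing maps: definitions

`rhoN n A` is the `n`-th approximant `ρ_n(A)`, `transfiniteDiameter A` is its infimum over `n ≥ 2`.
The file `Sanity.lean` shows that this is the limit of the (nonincreasing) sequence `ρ_n(A)`.
-/

open scoped BigOperators ENNReal Topology
open MeasureTheory Filter

namespace Pool.Agent.Lib.MP_0638d8_an

variable {S : Type*} [MetricSpace S]

/-- The product `∏_{i<j} d(p_i, p_j)^{2/(n(n-1))}` (with values in `[0, ∞]`). -/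
noncomputable def pairProduct (n : ℕ) (p : Fin n → S) : ℝ≥0∞ :=
  ∏ i, ∏ j ∈ Finset.Ioi i, (edist (p i) (p j)) ^ (2 / ((n : ℝ) * ((n : ℝ) - 1)))

/-- `ρ_n(A) = sup ∏_{i<j} d(p_i, p_j)^{2/(n(n-1))}`, the supremum over all `n`-tuples of points
of `A`. -/
noncomputable def rhoN (n : ℕ) (A : Set S) : ℝ≥0∞ :=
  ⨆ (p : Fin n → S) (_ : ∀ i, p i ∈ A), pairProduct n p

/-- The transfinite diameter `ρ(A) = lim ρ_n(A) = inf_{n ≥ 2} ρ_n(A)`. -/
noncomputable def transfiniteDiameter (A : Set S) : ℝ≥0∞ :=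
  ⨅ (n : ℕ) (_ : 2 ≤ n), rhoN n A

/-- The essential transfinite diameter
`ess ρ(A) = inf {ρ(B) : B ⊆ A measurable, P(B) = P(A)}`. -/
noncomputable def essTransfiniteDiameter [MeasurableSpace S] (P : Measure S) (A : Set S) : ℝ≥0∞ :=
  ⨅ (B : Set S) (_ : B ⊆ A ∧ MeasurableSet B ∧ P B = P A), transfiniteDiameter B

/-- Every open ball is measurable and has positive measure. -/
def BallsPositive [MeasurableSpace S] (P : Measure S) : Prop :=
  ∀ (x : S) (r : ℝ), 0 < r → MeasurableSet (Metric.ball x r) ∧ 0 < P (Metric.ball x r)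

/-- `ψ` is measure preserving and mixing with respect to `P`. -/
def IsMixing {S : Type*} [MeasurableSpace S] (P : Measure S) (ψ : S → S) : Prop :=
  (∀ A, MeasurableSet A → MeasurableSet (ψ ⁻¹' A) ∧ P (ψ ⁻¹' A) = P A) ∧
  ∀ A B, MeasurableSet A → MeasurableSet B →
    Tendsto (fun n : ℕ => P ((ψ^[n]) ⁻¹' A ∩ B)) atTop (𝓝 (P A * P B))

end Pool.Agent.Lib.MP_0638d8_an
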