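import Mathlib
import Pool.Agent.Lib.MP_0638d8_an.Defs

/-!
# Sanity checks: `ρ_n(A)` is nonincreasing and the transfinite diameter is its limit
-/

open scoped BigOperators ENNReal Topology
open MeasureTheory Filter

namespace Pool.Agent.Lib.MP_0638d8_an

variable {S : Type*} [MetricSpace S]

/-! ### Sanity checks: monotonicity and existence of the limit -/

lemma rhoN_mono (n : ℕ) {A B : Set S} (h : A ⊆ B) : rhoN n A ≤ rhoN n B := by
  refine iSup_le fun p => iSup_le fun hp => ?_
  exact le_iSup₂_of_le p (fun i => h (hp i)) le_rfl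

lemma transfiniteDiameter_mono {A B : Set S} (h : A ⊆ B) :
    transfiniteDiameter A ≤ transfiniteDiameter B :=
  iInf₂_mono fun n _ => rhoN_mono n h

lemma essTransfiniteDiameter_le [MeasurableSpace S] (P : Measure S) {A : Set S}
    (hA : MeasurableSet A) : essTransfiniteDiameter P A ≤ transfiniteDiameter A :=
  iInf₂_le A ⟨subset_rfl, hA, rfl⟩

/-- For a symmetric `f`, the square of the product over pairs `i < j` is the product over all
ordered pairs of distinct indices. -/
lemma prod_pairs_sq {n : ℕ} (f : Fin n → Fin n → ℝ≥0∞) (hf : ∀ i j, f i j = f j i) :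
    (∏ i, ∏ j ∈ Finset.Ioi i, f i j) ^ 2 = ∏ i, ∏ j ∈ Finset.univ.erase i, f i j := by
  have h1 : ∀ i : Fin n, (Finset.univ.erase i : Finset (Fin n)) =
      Finset.Ioi i ∪ Finset.Iio i := by
    intro i
    ext x
    simp only [Finset.mem_erase, Finset.mem_univ, and_true, Finset.mem_union, Finset.mem_Ioi,
      Finset.mem_Iio]
    constructor
    · intro h
      rcases lt_trichotomy x i with h' | h' | h'
      · exact Or.inr h'
      · exact absurd h' h
      · exact Or.inl h'
    · rintro (h | h)
      · exact h.ne'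
      · exact h.ne
  have h2 : ∀ i : Fin n, ∏ j ∈ Finset.univ.erase i, f i j =
      (∏ j ∈ Finset.Ioi i, f i j) * ∏ j ∈ Finset.Iio i, f i j := by
    intro i
    rw [h1, Finset.prod_union]
    rw [Finset.disjoint_left]
    intro x hx hx'
    exact absurd (Finset.mem_Ioi.mp hx) (not_lt.mpr (Finset.mem_Iio.mp hx').le)
  simp_rw [h2]
  rw [Finset.prod_mul_distrib, pow_two]
  congr 1
  rw [Finset.prod_comm' (t' := Finset.univ) (s' := fun j => Finset.Iio j)]
  · refine Finset.prod_congr rfl fun i _ => Finset.prod_congr rfl fun j _ => hf j i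
  · intro x y
    simp

/-- The product over ordered pairs of distinct indices. -/
noncomputable def fullProduct (n : ℕ) (p : Fin n → S) : ℝ≥0∞ :=
  ∏ i, ∏ j ∈ Finset.univ.erase i, edist (p i) (p j)

lemma pairProduct_eq {n : ℕ} (hn : 2 ≤ n) (p : Fin n → S) :
    pairProduct n p = (fullProduct n p) ^ (1 / ((n : ℝ) * ((n : ℝ) - 1))) := by
  have hn' : (2 : ℝ) ≤ n := by exact_mod_cast hn
  have hpos : (0 : ℝ) < (n : ℝ) * ((n : ℝ) - 1) := by
    apply mul_pos <;> linarith
  unfold pairProduct fullProduct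
  rw [← prod_pairs_sq (fun i j => edist (p i) (p j)) (fun i j => edist_comm _ _)]
  simp_rw [ENNReal.prod_rpow_of_nonneg (show (0 : ℝ) ≤ 2 / ((n : ℝ) * ((n : ℝ) - 1)) by positivity)]
  rw [← ENNReal.rpow_natCast, ← ENNReal.rpow_mul]
  congr 1
  push_cast
  ring

lemma fullProduct_le {n : ℕ} (hn : 2 ≤ n) {A : Set S} (p : Fin n → S) (hp : ∀ i, p i ∈ A) :
    fullProduct n p ≤ (rhoN n A) ^ (n * (n - 1)) := by
  have hn' : (2 : ℝ) ≤ n := by exact_mod_cast hn
  have hpos : (0 : ℝ) < (n : ℝ) * ((n : ℝ) - 1) := by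
    apply mul_pos <;> linarith
  have h : pairProduct n p ≤ rhoN n A := le_iSup₂_of_le p hp le_rfl
  rw [pairProduct_eq hn, one_div, ENNReal.rpow_inv_le_iff hpos] at h
  refine h.trans (le_of_eq ?_)
  rw [← ENNReal.rpow_natCast]
  congr 1
  rw [Nat.cast_mul, Nat.cast_sub (by omega)]
  simp

lemma prod_fullProduct {n : ℕ} (p : Fin (n + 1) → S) :
    ∏ k : Fin (n + 1), fullProduct n (fun i => p (k.succAbove i)) =
      (fullProduct (n + 1) p) ^ (n - 1) := by
  have h1 : ∀ k : Fin (n + 1), fullProduct n (fun i => p (k.succAbove i)) =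
      ∏ a, ∏ b, if a ≠ k ∧ b ≠ k ∧ a ≠ b then edist (p a) (p b) else 1 := by
    intro k
    unfold fullProduct
    have hre : ∀ g : Fin (n + 1) → ℝ≥0∞, ∏ i : Fin n, g (k.succAbove i) =
        ∏ a, if a ≠ k then g a else 1 := by
      intro g
      rw [Fin.prod_univ_succAbove _ k]
      simp [Fin.succAbove_ne]
    have hinner : ∀ i : Fin n, ∏ j ∈ Finset.univ.erase i,
        edist (p (k.succAbove i)) (p (k.succAbove j)) =
        ∏ b, if b ≠ k ∧ k.succAbove i ≠ b then edist (p (k.succAbove i)) (p b) else 1 := by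
      intro i
      have h2 : ∏ j ∈ Finset.univ.erase i, edist (p (k.succAbove i)) (p (k.succAbove j)) =
          ∏ j : Fin n, (fun b => if k.succAbove i ≠ b then edist (p (k.succAbove i)) (p b) else 1)
            (k.succAbove j) := by
        rw [← Finset.mul_prod_erase Finset.univ _ (Finset.mem_univ i)]
        simp only [ne_eq, not_true_eq_false, if_false, one_mul]
        refine Finset.prod_congr rfl fun j hj => ?_
        have : k.succAbove i ≠ k.succAbove j := fun h =>
          (Finset.ne_of_mem_erase hj) (Fin.succAbove_right_injective h).symm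
        simp [this]
      rw [h2, hre (fun b => if k.succAbove i ≠ b then edist (p (k.succAbove i)) (p b) else 1)]
      refine Finset.prod_congr rfl fun b _ => ?_
      by_cases hb : b = k <;> simp [hb]
    simp_rw [hinner]
    rw [hre (fun a => ∏ b, if b ≠ k ∧ a ≠ b then edist (p a) (p b) else 1)]
    refine Finset.prod_congr rfl fun a _ => ?_
    by_cases ha : a = k
    · simp [ha]
    · simp [ha]
  simp_rw [h1]
  rw [Finset.prod_comm]
  unfold fullProduct
  rw [← Finset.prod_pow]
  refine Finset.prod_congr rfl fun a _ => ?_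
  rw [Finset.prod_comm, ← Finset.prod_pow]
  rw [← Finset.mul_prod_erase Finset.univ _ (Finset.mem_univ a)]
  simp only [ne_eq, not_true_eq_false, and_false, if_false, Finset.prod_const_one, one_mul]
  refine Finset.prod_congr rfl fun b hb => ?_
  have hab : a ≠ b := (Finset.ne_of_mem_erase hb).symm
  rw [← Finset.prod_filter, Finset.prod_const]
  congr 1
  have : (Finset.univ.filter fun k : Fin (n + 1) => ¬a = k ∧ ¬b = k ∧ ¬a = b) =
      (Finset.univ.erase a).erase b := by
    ext k
    simp only [Finset.mem_filter, Finset.mem_univ, true_and, Finset.mem_erase, hab,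
      not_false_eq_true, and_true]
    constructor
    · rintro ⟨h1, h2⟩; exact ⟨fun h => h2 h.symm, fun h => h1 h.symm⟩
    · rintro ⟨h1, h2⟩; exact ⟨fun h => h2 h.symm, fun h => h1 h.symm⟩
  rw [this, Finset.card_erase_of_mem (by simp [hab.symm]), Finset.card_erase_of_mem (by simp)]
  simp

/-- The sequence `ρ_n(A)` is nonincreasing for `n ≥ 2`. -/
lemma rhoN_succ_le {n : ℕ} (hn : 2 ≤ n) (A : Set S) : rhoN (n + 1) A ≤ rhoN n A := by
  refine iSup_le fun p => iSup_le fun hp => ?_
  rw [pairProduct_eq (by omega)]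
  have hn' : (2 : ℝ) ≤ n := by exact_mod_cast hn
  have hpos : (0 : ℝ) < ((n + 1 : ℕ) : ℝ) * (((n + 1 : ℕ) : ℝ) - 1) := by
    push_cast
    apply mul_pos <;> linarith
  rw [one_div, ENNReal.rpow_inv_le_iff hpos]
  have h := Finset.prod_le_prod' (s := Finset.univ) fun (k : Fin (n + 1)) _ =>
    fullProduct_le hn (A := A) (fun i => p (k.succAbove i)) (fun i => hp _)
  rw [prod_fullProduct, Finset.prod_const, Finset.card_univ, Fintype.card_fin, ← pow_mul] at h
  have h2 : n * (n - 1) * (n + 1) = ((n + 1) * n) * (n - 1) := by ring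
  rw [h2, pow_mul (rhoN n A)] at h
  have h3 := (ENNReal.pow_le_pow_left_iff (n := n - 1) (by omega)).mp h
  refine h3.trans (le_of_eq ?_)
  rw [← ENNReal.rpow_natCast]
  congr 1
  push_cast
  ring

lemma rhoN_anti {m n : ℕ} (hm : 2 ≤ m) (hmn : m ≤ n) (A : Set S) : rhoN n A ≤ rhoN m A := by
  induction n, hmn using Nat.le_induction with
  | base => exact le_rfl
  | succ k hk ih => exact (rhoN_succ_le (hm.trans hk) A).trans ih

/-- The transfinite diameter is the limit of `ρ_n(A)`. -/
theorem tendsto_rhoN (A : Set S) :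
    Tendsto (fun n => rhoN n A) atTop (𝓝 (transfiniteDiameter A)) := by
  have h1 : Antitone (fun n => rhoN (n + 2) A) := fun m n hmn =>
    rhoN_anti (by omega) (by omega) A
  have h2 := tendsto_atTop_iInf h1
  have h3 : ⨅ n, rhoN (n + 2) A = transfiniteDiameter A := by
    apply le_antisymm
    · refine le_iInf₂ fun n hn => ?_
      obtain ⟨k, rfl⟩ : ∃ k, n = k + 2 := ⟨n - 2, by omega⟩
      exact iInf_le _ k
    · exact le_iInf fun n => iInf₂_le (n + 2) (by omega)
  rw [h3] at h2
  exact (tendsto_add_atTop_iff_nat 2).mp h2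

end Pool.Agent.Lib.MP_0638d8_an
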