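import Mathlib
import Pool.Agent.Lib.MP_0638d8_an.Defs
import Pool.Agent.Lib.MP_0638d8_an.Sanity

/-!
# The compact ultrametric space of the counterexample

`X` is the Cantor space `{0,1}^ℕ` with the distance `2^{-g(x,n)}`, where `n` is the first index where
`x` and `y` differ and `g(x,n) = n` if `x_i = 0` for all odd `i < n`, and `g(x,n) = 8^n` otherwise.
-/

open scoped BigOperators ENNReal Topology
open MeasureTheory Filter PiNat

namespace Pool.Agent.Lib.MP_0638d8_an

/-- The first `n` coordinates of `x` vanish at odd places. -/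
def Thin (x : ℕ → Bool) (n : ℕ) : Prop := ∀ i < n, i % 2 = 1 → x i = false

open Classical in
/-- The exponent of the distance. -/
noncomputable def gauge (x : ℕ → Bool) (n : ℕ) : ℕ := if Thin x n then n else 8 ^ n

lemma Thin.mono {x : ℕ → Bool} {m n : ℕ} (h : Thin x n) (hmn : m ≤ n) : Thin x m :=
  fun i hi => h i (hi.trans_le hmn)

lemma le_gauge (x : ℕ → Bool) (n : ℕ) : n ≤ gauge x n := by
  unfold gauge
  split_ifs
  · exact le_rfl
  · exact (Nat.lt_pow_self (by norm_num)).le

lemma gauge_mono (x : ℕ → Bool) {m n : ℕ} (h : m ≤ n) : gauge x m ≤ gauge x n := by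
  by_cases hn : Thin x n
  · have hm : Thin x m := hn.mono h
    simp [gauge, hn, hm, h]
  · by_cases hm : Thin x m
    · simp only [gauge, hn, hm, if_true, if_false]
      exact h.trans (Nat.lt_pow_self (by norm_num)).le
    · simp only [gauge, hn, hm, if_false]
      exact Nat.pow_le_pow_right (by norm_num) h

lemma gauge_congr {x y : ℕ → Bool} {n : ℕ} (h : ∀ i < n, x i = y i) : gauge x n = gauge y n := by
  have : Thin x n ↔ Thin y n := by
    constructor
    · intro hx i hi ho; rw [← h i hi]; exact hx i hi ho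
    · intro hx i hi ho; rw [h i hi]; exact hx i hi ho
  by_cases hy : Thin y n
  · simp [gauge, this.mpr hy, hy]
  · have hx : ¬ Thin x n := fun hx => hy (this.mp hx)
    simp [gauge, hx, hy]

lemma gauge_firstDiff_comm (x y : ℕ → Bool) :
    gauge x (firstDiff x y) = gauge y (firstDiff x y) :=
  gauge_congr fun _ hi => apply_eq_of_lt_firstDiff hi

open Classical in
/-- The distance. -/
noncomputable def gdist (x y : ℕ → Bool) : ℝ :=
  if x = y then 0 else (1 / 2 : ℝ) ^ gauge x (firstDiff x y)

lemma gdist_self (x : ℕ → Bool) : gdist x x = 0 := by simp [gdist]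

lemma gdist_of_ne {x y : ℕ → Bool} (h : x ≠ y) :
    gdist x y = (1 / 2 : ℝ) ^ gauge x (firstDiff x y) := by simp [gdist, h]

lemma gdist_comm (x y : ℕ → Bool) : gdist x y = gdist y x := by
  by_cases h : x = y
  · simp [h]
  · rw [gdist_of_ne h, gdist_of_ne (Ne.symm h), gauge_firstDiff_comm, firstDiff_comm]

lemma gdist_nonneg (x y : ℕ → Bool) : 0 ≤ gdist x y := by
  unfold gdist
  split_ifs
  · exact le_rfl
  · positivity

lemma gdist_le_one (x y : ℕ → Bool) : gdist x y ≤ 1 := by
  unfold gdist
  split_ifs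
  · norm_num
  · exact pow_le_one₀ (by norm_num) (by norm_num)

lemma gdist_ultra (x y z : ℕ → Bool) : gdist x z ≤ max (gdist x y) (gdist y z) := by
  by_cases hxz : x = z
  · rw [hxz, gdist_self]
    exact le_max_of_le_left (gdist_nonneg _ _)
  by_cases hxy : x = y
  · rw [hxy]; exact le_max_right _ _
  by_cases hyz : y = z
  · rw [hyz]; exact le_max_left _ _
  rw [gdist_of_ne hxz, gdist_of_ne hxy, gdist_of_ne hyz]
  have h := min_firstDiff_le x y z hxz
  rcases le_total (firstDiff x y) (firstDiff y z) with h1 | h1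
  · rw [min_eq_left h1] at h
    refine le_max_of_le_left ?_
    exact pow_le_pow_of_le_one (by norm_num) (by norm_num) (gauge_mono x h)
  · rw [min_eq_right h1] at h
    refine le_max_of_le_right ?_
    have h2 : gauge y (firstDiff y z) = gauge x (firstDiff y z) :=
      gauge_congr fun i hi => (apply_eq_of_lt_firstDiff (hi.trans_le h1)).symm
    rw [h2]
    exact pow_le_pow_of_le_one (by norm_num) (by norm_num) (gauge_mono x h)

lemma gdist_triangle (x y z : ℕ → Bool) : gdist x z ≤ gdist x y + gdist y z :=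
  (gdist_ultra x y z).trans (max_le_add_of_nonneg (gdist_nonneg _ _) (gdist_nonneg _ _))

lemma eq_of_gdist (x y : ℕ → Bool) (h : gdist x y = 0) : x = y := by
  by_contra hne
  rw [gdist_of_ne hne] at h
  exact absurd h (by positivity)

lemma gdist_le_of_mem_cylinder {x y : ℕ → Bool} {n : ℕ} (h : y ∈ cylinder x n) :
    gdist x y ≤ (1 / 2 : ℝ) ^ n := by
  by_cases hxy : x = y
  · rw [hxy, gdist_self]; positivity
  · rw [gdist_of_ne hxy]
    have h1 : n ≤ firstDiff x y := (mem_cylinder_iff_le_firstDiff hxy n).mp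
      ((mem_cylinder_comm x y n).mp h)
    exact pow_le_pow_of_le_one (by norm_num) (by norm_num) (h1.trans (le_gauge _ _))

lemma mem_cylinder_of_gdist_lt {x y : ℕ → Bool} {n : ℕ}
    (h : gdist x y < (1 / 2 : ℝ) ^ gauge x n) : y ∈ cylinder x n := by
  by_cases hxy : x = y
  · rw [hxy]; exact self_mem_cylinder y n
  · rw [gdist_of_ne hxy] at h
    rw [mem_cylinder_comm, mem_cylinder_iff_le_firstDiff hxy]
    by_contra hlt
    have h1 : gauge x (firstDiff x y) ≤ gauge x n := gauge_mono x (not_le.mp hlt).le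
    exact absurd h (not_lt.mpr (pow_le_pow_of_le_one (by norm_num) (by norm_num) h1))

lemma isOpen_iff_gdist (s : Set (ℕ → Bool)) :
    IsOpen s ↔ ∀ x ∈ s, ∃ ε > 0, ∀ y, gdist x y < ε → y ∈ s := by
  constructor
  · intro hs x hx
    obtain ⟨v, ⟨y, n, rfl⟩, h'x, h's⟩ :
        ∃ v ∈ { s | ∃ (x : ℕ → Bool) (n : ℕ), s = cylinder x n }, x ∈ v ∧ v ⊆ s :=
      (isTopologicalBasis_cylinders fun _ => Bool).exists_subset_of_mem_open hx hs
    rw [← mem_cylinder_iff_eq.1 h'x] at h's
    exact ⟨(1 / 2 : ℝ) ^ gauge x n, by positivity, fun y hy => h's (mem_cylinder_of_gdist_lt hy)⟩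
  · intro h
    refine (isTopologicalBasis_cylinders fun _ => Bool).isOpen_iff.2 fun x hx => ?_
    rcases h x hx with ⟨ε, εpos, hε⟩
    obtain ⟨n, hn⟩ : ∃ n : ℕ, (1 / 2 : ℝ) ^ n < ε := exists_pow_lt_of_lt_one εpos one_half_lt_one
    exact ⟨cylinder x n, ⟨x, n, rfl⟩, self_mem_cylinder x n, fun y hy => hε y
      ((gdist_le_of_mem_cylinder hy).trans_lt hn)⟩

/-- The Cantor space, to be equipped with the distance `gdist`. -/
def X : Type := ℕ → Bool

instance : TopologicalSpace X := inferInstanceAs (TopologicalSpace (ℕ → Bool))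

noncomputable instance : MetricSpace X :=
  MetricSpace.ofDistTopology (α := X) gdist gdist_self gdist_comm gdist_triangle
    isOpen_iff_gdist eq_of_gdist

instance : MeasurableSpace X := inferInstanceAs (MeasurableSpace (ℕ → Bool))

instance : CompactSpace X := inferInstanceAs (CompactSpace (ℕ → Bool))

instance : BorelSpace X := inferInstanceAs (BorelSpace (ℕ → Bool))

lemma dist_eq (x y : X) : dist x y = gdist x y := rfl

lemma edist_eq (x y : X) : edist x y = ENNReal.ofReal (gdist x y) := by
  rw [edist_dist, dist_eq]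

lemma edist_le_one (x y : X) : edist x y ≤ 1 := by
  rw [edist_eq]
  exact ENNReal.ofReal_le_one.mpr (gdist_le_one _ _)

end Pool.Agent.Lib.MP_0638d8_an
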