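import Mathlib
import Pool.Agent.Lib.MP_0638d8_an.Metric

/-!
# Transfinite diameters in the space `X`

* `quarter_le`: the whole space has transfinite diameter at least `1/4`;
* `transfiniteDiameter_eq_zero`: sets of points with a `1` at an odd place before a fixed index have
  transfinite diameter `0`.
-/

open scoped BigOperators ENNReal Topology
open MeasureTheory Filter PiNat

namespace Pool.Agent.Lib.MP_0638d8_an

/-! ### Lower bound -/

/-- The point of the thin tree coding the natural number `a` in binary at the even places. -/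
def code (a : ℕ) : X := fun l => if l % 2 = 0 then a.testBit (l / 2) else false

lemma code_apply_even (a v : ℕ) : code a (2 * v) = a.testBit v := by
  unfold code
  simp

lemma code_thin (a n : ℕ) : Thin (code a) n := by
  intro i _ hi
  unfold code
  simp [hi]

lemma testBit_ne {i j : ℕ} (h : i < j) :
    i.testBit (padicValNat 2 (j - i)) ≠ j.testBit (padicValNat 2 (j - i)) := by
  set v := padicValNat 2 (j - i) with hv
  have hne : j - i ≠ 0 := by omega
  obtain ⟨c, hc⟩ : 2 ^ v ∣ j - i := pow_padicValNat_dvd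
  have hodd : c % 2 = 1 := by
    by_contra h0
    have h1 : 2 ∣ c := by omega
    obtain ⟨d, rfl⟩ := h1
    have h2 : 2 ^ (v + 1) ∣ j - i := ⟨d, by rw [hc]; ring⟩
    have h3 := (padicValNat_dvd_iff_le hne).mp h2
    omega
  have hj : j = i + 2 ^ v * c := by omega
  rw [Nat.testBit_eq_decide_div_mod_eq, Nat.testBit_eq_decide_div_mod_eq, hj,
    Nat.add_mul_div_left _ _ (by positivity)]
  intro h1
  rw [decide_eq_decide] at h1
  omega

lemma sum_padicVal_succ (j : ℕ) :
    ∑ i ∈ Finset.range j, padicValNat 2 (i + 1) = padicValNat 2 j.factorial := by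
  induction j with
  | zero => simp
  | succ k ih =>
    rw [Finset.sum_range_succ, ih, Nat.factorial_succ,
      padicValNat.mul (by omega) (Nat.factorial_ne_zero k), add_comm]

lemma sum_padicVal_le (n : ℕ) :
    ∑ j ∈ Finset.range n, ∑ i ∈ Finset.range j, padicValNat 2 (j - i) ≤
      ∑ j ∈ Finset.range n, j := by
  refine Finset.sum_le_sum fun j _ => ?_
  have h1 : ∑ i ∈ Finset.range j, padicValNat 2 (j - i) = padicValNat 2 j.factorial := by
    rw [← Finset.sum_range_reflect]
    have h2 : ∀ i ∈ Finset.range j, padicValNat 2 (j - (j - 1 - i)) = padicValNat 2 (i + 1) := by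
      intro i hi
      have := Finset.mem_range.mp hi
      congr 1
      omega
    rw [Finset.sum_congr rfl h2, sum_padicVal_succ]
  rw [h1]
  have h3 := sub_one_mul_padicValNat_factorial (p := 2) j
  simp only [Nat.add_one_sub_one, one_mul] at h3
  rw [h3]
  exact Nat.sub_le _ _

lemma edist_code {i j : ℕ} (h : i < j) :
    ((1 / 4 : ℝ≥0∞)) ^ (padicValNat 2 (j - i)) ≤ edist (code i) (code j) := by
  have hb := testBit_ne h
  set v := padicValNat 2 (j - i)
  have hne : (code i : ℕ → Bool) ≠ code j := by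
    intro heq
    have := congrFun heq (2 * v)
    rw [code_apply_even, code_apply_even] at this
    exact hb this
  rw [edist_eq, gdist_of_ne hne]
  have hfd : firstDiff (code i : ℕ → Bool) (code j) ≤ 2 * v := by
    by_contra hlt
    have := apply_eq_of_lt_firstDiff (not_le.mp hlt)
    rw [code_apply_even, code_apply_even] at this
    exact hb this
  have hg : gauge (code i) (firstDiff (code i : ℕ → Bool) (code j)) ≤ 2 * v := by
    unfold gauge
    rw [if_pos (code_thin _ _)]
    exact hfd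
  have h4 : ((1 / 4 : ℝ≥0∞)) = ENNReal.ofReal ((1 / 2) ^ 2) := by
    rw [ENNReal.ofReal_pow (by norm_num), ENNReal.ofReal_div_of_pos (by norm_num)]
    simp only [ENNReal.ofReal_one, ENNReal.ofReal_ofNat, one_div]
    rw [← ENNReal.inv_pow]
    norm_num
  rw [h4, ← ENNReal.ofReal_pow (by norm_num), ← pow_mul]
  exact ENNReal.ofReal_le_ofReal (pow_le_pow_of_le_one (by norm_num) (by norm_num) hg)

lemma quarter_le_pairProduct {n : ℕ} (hn : 2 ≤ n) :
    (1 / 4 : ℝ≥0∞) ≤ pairProduct n (fun i : Fin n => code i) := by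
  have hn' : (2 : ℝ) ≤ n := by exact_mod_cast hn
  have hpos : (0 : ℝ) < (n : ℝ) * ((n : ℝ) - 1) := by
    apply mul_pos <;> linarith
  unfold pairProduct
  set e : ℝ := 2 / ((n : ℝ) * ((n : ℝ) - 1)) with he
  have hepos : 0 < e := by positivity
  have h1 : ∏ i : Fin n, ∏ j ∈ Finset.Ioi i,
      (((1 / 4 : ℝ≥0∞)) ^ (padicValNat 2 ((j : ℕ) - i))) ^ e ≤
      ∏ i : Fin n, ∏ j ∈ Finset.Ioi i, (edist (code i) (code j)) ^ e := by
    refine Finset.prod_le_prod' fun i _ => Finset.prod_le_prod' fun j hj => ?_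
    have hij : (i : ℕ) < j := Fin.lt_def.mp (Finset.mem_Ioi.mp hj)
    exact ENNReal.rpow_le_rpow (edist_code hij) hepos.le
  refine le_trans ?_ h1
  have h2 : ∏ i : Fin n, ∏ j ∈ Finset.Ioi i,
      (((1 / 4 : ℝ≥0∞)) ^ (padicValNat 2 ((j : ℕ) - i))) ^ e =
      (((1 / 4 : ℝ≥0∞)) ^ (∑ i : Fin n, ∑ j ∈ Finset.Ioi i, padicValNat 2 ((j : ℕ) - i))) ^ e := by
    rw [← Finset.prod_pow_eq_pow_sum, ← ENNReal.prod_rpow_of_nonneg hepos.le]
    refine Finset.prod_congr rfl fun i _ => ?_
    rw [← Finset.prod_pow_eq_pow_sum, ← ENNReal.prod_rpow_of_nonneg hepos.le]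
  rw [h2]
  have h3 : ∑ i : Fin n, ∑ j ∈ Finset.Ioi i, padicValNat 2 ((j : ℕ) - i) =
      ∑ j ∈ Finset.range n, ∑ i ∈ Finset.range j, padicValNat 2 (j - i) := by
    rw [Finset.sum_comm' (t' := Finset.univ) (s' := fun j => Finset.Iio j)]
    · rw [← Fin.sum_univ_eq_sum_range
        (fun j => ∑ i ∈ Finset.range j, padicValNat 2 (j - i)) n]
      refine Finset.sum_congr rfl fun j _ => ?_
      have : Finset.range (j : ℕ) = (Finset.Iio j).map Fin.valEmbedding := by
        ext x
        simp only [Finset.mem_range, Finset.mem_map, Finset.mem_Iio, Fin.valEmbedding_apply]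
        constructor
        · intro hx
          exact ⟨⟨x, hx.trans j.2⟩, by simpa [Fin.lt_def] using hx, rfl⟩
        · rintro ⟨a, ha, rfl⟩
          exact ha
      rw [this, Finset.sum_map]
      rfl
    · intro x y
      simp
  rw [h3]
  have h4 : (∑ j ∈ Finset.range n, ∑ i ∈ Finset.range j, padicValNat 2 (j - i) : ℕ) * e ≤ 1 := by
    have h5 := sum_padicVal_le n
    rw [Finset.sum_range_id] at h5
    have h6 : ((n * (n - 1) / 2 : ℕ) : ℝ) = (n : ℝ) * ((n : ℝ) - 1) / 2 := by
      rw [Nat.cast_div, Nat.cast_mul, Nat.cast_sub (by omega)]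
      · simp
      · exact (Nat.even_mul_pred_self n).two_dvd
      · norm_num
    have h7 : ((∑ j ∈ Finset.range n, ∑ i ∈ Finset.range j, padicValNat 2 (j - i) : ℕ) : ℝ) ≤
        (n : ℝ) * ((n : ℝ) - 1) / 2 := by
      rw [← h6]; exact_mod_cast h5
    calc _ ≤ (n : ℝ) * ((n : ℝ) - 1) / 2 * e := mul_le_mul_of_nonneg_right h7 hepos.le
      _ = 1 := by
        have hne1 : (n : ℝ) - 1 ≠ 0 := by linarith
        rw [he]; field_simp
  rw [← ENNReal.rpow_natCast, ← ENNReal.rpow_mul]
  calc (1 / 4 : ℝ≥0∞) = (1 / 4 : ℝ≥0∞) ^ (1 : ℝ) := by rw [ENNReal.rpow_one]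
    _ ≤ _ := ENNReal.rpow_le_rpow_of_exponent_ge (by simp) h4

/-- The transfinite diameter of the whole space is at least `1/4`. -/
theorem quarter_le : (1 / 4 : ℝ≥0∞) ≤ transfiniteDiameter (Set.univ : Set X) := by
  refine le_iInf₂ fun n hn => ?_
  exact (quarter_le_pairProduct hn).trans
    (le_iSup₂_of_le (fun i : Fin n => code i) (fun _ => Set.mem_univ _) le_rfl)

/-! ### Upper bound -/

lemma card_collisions {m M : ℕ} {β : Type*} [Fintype β] [DecidableEq β] (c : Fin m → β)
    (hβ : Fintype.card β ≤ M) :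
    m - M ≤ ((Finset.univ.sigma fun i : Fin m => Finset.Ioi i).filter
      fun x => c x.1 = c x.2).card := by
  classical
  set F : Finset (Fin m) := Finset.univ.filter fun j => ∃ i, i < j ∧ c i = c j with hF
  have h1 : (Finset.univ.filter fun j : Fin m => ¬ ∃ i, i < j ∧ c i = c j).card ≤ M := by
    refine le_trans (Finset.card_le_card_of_injOn c (fun _ _ => Finset.mem_univ _) ?_)
      (by rwa [Finset.card_univ])
    intro a ha b hb hab
    simp only [Finset.coe_filter, Finset.mem_univ, true_and, Set.mem_ofPred_eq, not_exists,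
      not_and] at ha hb
    rcases lt_trichotomy a b with h | h | h
    · exact absurd hab (hb a h)
    · exact h
    · exact absurd hab.symm (ha b h)
  have h2 : m - M ≤ F.card := by
    have h3 : F.card + (Finset.univ.filter fun j : Fin m => ¬ ∃ i, i < j ∧ c i = c j).card = m := by
      have := Finset.card_filter_add_card_filter_not (s := (Finset.univ : Finset (Fin m)))
        (p := fun j => ∃ i, i < j ∧ c i = c j)
      rwa [Finset.card_univ, Fintype.card_fin] at this
    omega
  refine h2.trans ?_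
  have hch : ∀ j : Fin m, ∃ i : Fin m, (∃ i, i < j ∧ c i = c j) → i < j ∧ c i = c j := by
    intro j
    by_cases h : ∃ i, i < j ∧ c i = c j
    · obtain ⟨i, hi⟩ := h
      exact ⟨i, fun _ => hi⟩
    · exact ⟨j, fun h' => absurd h' h⟩
  choose g hg using hch
  refine Finset.card_le_card_of_injOn (fun j => (⟨g j, j⟩ : (_ : Fin m) × Fin m)) ?_ ?_
  · intro j hj
    simp only [hF, Finset.coe_filter, Finset.mem_univ, true_and, Set.mem_ofPred_eq] at hj
    simp only [Finset.coe_filter, Finset.mem_sigma, Finset.mem_univ, true_and, Finset.mem_Ioi,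
      Set.mem_ofPred_eq]
    exact hg j hj
  · intro a _ b _ hab
    simp only [Sigma.mk.injEq, heq_eq_eq] at hab
    exact hab.2

lemma transfiniteDiameter_le_pow (A : Set X) (K n : ℕ) (hK : K ≤ n)
    (hA : ∀ x ∈ A, ¬ Thin x K) (hn : 1 ≤ n) :
    transfiniteDiameter A ≤ (1 / 2 : ℝ≥0∞) ^ n := by
  refine (iInf₂_le (2 ^ (n + 1)) ?_).trans ?_
  · calc 2 = 2 ^ 1 := by norm_num
      _ ≤ 2 ^ (n + 1) := Nat.pow_le_pow_right (by norm_num) (by omega)
  refine iSup_le fun p => iSup_le fun hp => ?_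
  unfold pairProduct
  set e : ℝ := 2 / (((2 ^ (n + 1) : ℕ) : ℝ) * (((2 ^ (n + 1) : ℕ) : ℝ) - 1)) with he
  have hM : (2 : ℝ) ≤ ((2 ^ (n + 1) : ℕ) : ℝ) := by
    push_cast
    calc (2 : ℝ) = 2 ^ 1 := by norm_num
      _ ≤ 2 ^ (n + 1) := pow_le_pow_right₀ (by norm_num) (by omega)
  have hepos : 0 < e := by
    have : (0 : ℝ) < ((2 ^ (n + 1) : ℕ) : ℝ) - 1 := by linarith
    positivity
  -- the class of a point: its first `n` coordinates
  let c : Fin (2 ^ (n + 1)) → (Fin n → Bool) := fun i l => p i l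
  have hterm : ∀ i j : Fin (2 ^ (n + 1)), c i = c j →
      edist (p i) (p j) ≤ ENNReal.ofReal ((1 / 2) ^ (8 ^ n)) := by
    intro i j hij
    rw [edist_eq]
    refine ENNReal.ofReal_le_ofReal ?_
    by_cases hne : (p i : ℕ → Bool) = p j
    · have h0 : gdist (p i : ℕ → Bool) (p j) = 0 :=
        (congrArg (fun z : ℕ → Bool => gdist z (p j)) hne).trans (gdist_self (p j))
      rw [h0]; positivity
    · rw [gdist_of_ne hne]
      have hfd : n ≤ firstDiff (p i : ℕ → Bool) (p j) := by
        by_contra hlt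
        have hlt' := not_le.mp hlt
        exact apply_firstDiff_ne hne (congrFun hij ⟨_, hlt'⟩)
      have hnt : ¬ Thin (p i) (firstDiff (p i : ℕ → Bool) (p j)) :=
        fun h => hA _ (hp i) (h.mono (hK.trans hfd))
      unfold gauge
      rw [if_neg hnt]
      exact pow_le_pow_of_le_one (by norm_num) (by norm_num)
        (Nat.pow_le_pow_right (by norm_num) hfd)
  set δ : ℝ≥0∞ := (ENNReal.ofReal ((1 / 2) ^ (8 ^ n))) ^ e with hδ
  have hδ1 : δ ≤ 1 := by
    rw [hδ]
    refine ENNReal.rpow_le_one ?_ hepos.le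
    exact ENNReal.ofReal_le_one.mpr (pow_le_one₀ (by norm_num) (by norm_num))
  have h1 : ∏ i, ∏ j ∈ Finset.Ioi i, (edist (p i) (p j)) ^ e ≤
      ∏ i, ∏ j ∈ Finset.Ioi i, if c i = c j then δ else 1 := by
    refine Finset.prod_le_prod' fun i _ => Finset.prod_le_prod' fun j _ => ?_
    split_ifs with hc
    · exact ENNReal.rpow_le_rpow (hterm i j hc) hepos.le
    · exact ENNReal.rpow_le_one (edist_le_one _ _) hepos.le
  refine h1.trans ?_
  rw [Finset.prod_sigma' Finset.univ (fun i => Finset.Ioi i)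
    (fun i j => if c i = c j then δ else 1), ← Finset.prod_filter, Finset.prod_const]
  have hcard : 2 ^ n ≤ ((Finset.univ.sigma fun i : Fin (2 ^ (n + 1)) => Finset.Ioi i).filter
      fun x => c x.1 = c x.2).card := by
    have := card_collisions (M := 2 ^ n) c (by simp)
    have h2 : 2 ^ (n + 1) - 2 ^ n = 2 ^ n := by rw [pow_succ]; omega
    rwa [h2] at this
  refine (pow_le_pow_right_of_le_one' hδ1 hcard).trans ?_
  -- final estimate
  have h8 : ENNReal.ofReal ((1 / 2 : ℝ) ^ (8 ^ n)) = (1 / 2 : ℝ≥0∞) ^ ((8 ^ n : ℕ) : ℝ) := by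
    rw [ENNReal.rpow_natCast, ENNReal.ofReal_pow (by norm_num),
      ENNReal.ofReal_div_of_pos (by norm_num)]
    simp
  rw [hδ, h8, ← ENNReal.rpow_mul, ← ENNReal.rpow_natCast, ← ENNReal.rpow_mul,
    ← ENNReal.rpow_natCast]
  refine ENNReal.rpow_le_rpow_of_exponent_ge (by simp) ?_
  have hepos2 : 1 / (2 * (4 : ℝ) ^ n) ≤ e := by
    rw [he]
    push_cast
    have h41 : (2 : ℝ) ^ (n + 1) * (2 ^ (n + 1) - 1) ≤ 4 * 4 ^ n := by
      have : (4 : ℝ) ^ n = 2 ^ n * 2 ^ n := by rw [← mul_pow]; norm_num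
      rw [this, pow_succ]
      nlinarith [show (0 : ℝ) < 2 ^ n by positivity]
    have hpos : (0 : ℝ) < (2 : ℝ) ^ (n + 1) * (2 ^ (n + 1) - 1) := by
      push_cast at hM
      apply mul_pos <;> linarith
    rw [div_le_div_iff₀ (by positivity) hpos]
    nlinarith
  have h16 : (n : ℝ) ≤ (8 : ℝ) ^ n * (1 / (2 * (4 : ℝ) ^ n)) * 2 ^ n := by
    have h32 : (8 : ℝ) ^ n = 4 ^ n * 2 ^ n := by rw [← mul_pow]; norm_num
    have h2n : (2 : ℝ) ^ n * 2 ^ n = 4 ^ n := by rw [← mul_pow]; norm_num
    have h5 : (8 : ℝ) ^ n * (1 / (2 * (4 : ℝ) ^ n)) * 2 ^ n = 4 ^ n / 2 := by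
      rw [h32]; field_simp; rw [pow_two, h2n]
    rw [h5]
    have h6 : (n : ℝ) ≤ 2 ^ n := by exact_mod_cast (Nat.lt_pow_self (by norm_num : 1 < 2)).le
    have h7 : (2 : ℝ) ≤ 2 ^ n := by
      calc (2 : ℝ) = 2 ^ 1 := by norm_num
        _ ≤ 2 ^ n := pow_le_pow_right₀ (by norm_num) hn
    rw [← h2n]
    nlinarith
  refine h16.trans ?_
  push_cast
  have : (0 : ℝ) < 8 ^ n := by positivity
  have : (0 : ℝ) < 2 ^ n := by positivity
  gcongr

/-- A set of points which leave the thin tree before time `K` has transfinite diameter `0`. -/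
theorem transfiniteDiameter_eq_zero (A : Set X) (K : ℕ) (hA : ∀ x ∈ A, ¬ Thin x K) :
    transfiniteDiameter A = 0 := by
  refine le_antisymm ?_ zero_le
  have h : Tendsto (fun n : ℕ => (1 / 2 : ℝ≥0∞) ^ n) atTop (𝓝 0) :=
    ENNReal.tendsto_pow_atTop_nhds_zero_of_lt_one (by simp)
  refine ge_of_tendsto h ?_
  filter_upwards [eventually_ge_atTop (max K 1)] with n hn
  exact transfiniteDiameter_le_pow A K n (le_of_max_le_left hn) hA (le_of_max_le_right hn)

end Pool.Agent.Lib.MP_0638d8_an
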