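import Mathlib
import Pool.Agent.Lib.MP_0638d8_an.Metric

/-!
# The fair coin measure on `{0,1}^ℕ` and the shift

The one-sided shift is measure preserving and mixing.
-/

open scoped BigOperators ENNReal Topology
open MeasureTheory Filter PiNat

namespace Pool.Agent.Lib.MP_0638d8_an

/-! ### Mixing on a generating π-system suffices -/

lemma tendsto_left_of_piSystem {Ω : Type*} [m : MeasurableSpace Ω] (P : Measure Ω)
    [IsProbabilityMeasure P] (T : ℕ → Ω → Ω) (hT : ∀ n, MeasurePreserving (T n) P P)
    (C : Set (Set Ω)) (hC : IsPiSystem C) (hgen : m = MeasurableSpace.generateFrom C)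
    (B : Set Ω) (hB : MeasurableSet B)
    (h : ∀ A ∈ C, Tendsto (fun n => P.real ((T n) ⁻¹' A ∩ B)) atTop (𝓝 (P.real A * P.real B)))
    (A : Set Ω) (hA : MeasurableSet A) :
    Tendsto (fun n => P.real ((T n) ⁻¹' A ∩ B)) atTop (𝓝 (P.real A * P.real B)) := by
  induction A, hA using MeasurableSpace.induction_on_inter hgen hC with
  | empty => simp
  | basic t ht => exact h t ht
  | compl t ht ih =>
    have h1 : ∀ n, P.real ((T n) ⁻¹' tᶜ ∩ B) = P.real B - P.real ((T n) ⁻¹' t ∩ B) := by
      intro n
      have h2 : (T n) ⁻¹' tᶜ ∩ B = B \ ((T n) ⁻¹' t ∩ B) := by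
        ext x; simp only [Set.mem_inter_iff, Set.mem_preimage, Set.mem_compl_iff, Set.mem_sdiff]
        tauto
      rw [h2, measureReal_sdiff Set.inter_subset_right (((hT n).measurable ht).inter hB)]
    simp_rw [h1]
    rw [probReal_compl_eq_one_sub ht, sub_mul, one_mul]
    exact tendsto_const_nhds.sub ih
  | iUnion f hd hf ih =>
    have h1 : ∀ n, P.real ((T n) ⁻¹' (⋃ i, f i) ∩ B) = ∑' i, P.real ((T n) ⁻¹' (f i) ∩ B) := by
      intro n
      rw [Set.preimage_iUnion, Set.iUnion_inter, measureReal_def, measure_iUnion,
        ENNReal.tsum_toReal_eq (fun i => measure_ne_top _ _)]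
      · rfl
      · intro i j hij
        exact ((hd hij).preimage (T n)).mono Set.inter_subset_left Set.inter_subset_left
      · intro i; exact ((hT n).measurable (hf i)).inter hB
    have h2 : P.real (⋃ i, f i) = ∑' i, P.real (f i) := by
      rw [measureReal_def, measure_iUnion hd hf, ENNReal.tsum_toReal_eq (fun i => measure_ne_top _ _)]
      rfl
    have hsum : Summable fun i => P.real (f i) := by
      refine ENNReal.summable_toReal ?_
      rw [← measure_iUnion hd hf]
      exact measure_ne_top _ _
    simp_rw [h1]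
    rw [h2, ← tsum_mul_right]
    refine tendsto_tsum_of_dominated_convergence hsum ih (Eventually.of_forall fun n i => ?_)
    rw [Real.norm_eq_abs, abs_of_nonneg measureReal_nonneg]
    calc P.real ((T n) ⁻¹' (f i) ∩ B) ≤ P.real ((T n) ⁻¹' (f i)) :=
          measureReal_mono Set.inter_subset_left
      _ = P.real (f i) := by
          rw [measureReal_def, (hT n).measure_preimage (hf i).nullMeasurableSet]; rfl

lemma tendsto_right_of_piSystem {Ω : Type*} [m : MeasurableSpace Ω] (P : Measure Ω)
    [IsProbabilityMeasure P] (T : ℕ → Ω → Ω) (hT : ∀ n, MeasurePreserving (T n) P P)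
    (C : Set (Set Ω)) (hC : IsPiSystem C) (hgen : m = MeasurableSpace.generateFrom C)
    (A : Set Ω) (hA : MeasurableSet A)
    (h : ∀ B ∈ C, Tendsto (fun n => P.real ((T n) ⁻¹' A ∩ B)) atTop (𝓝 (P.real A * P.real B)))
    (B : Set Ω) (hB : MeasurableSet B) :
    Tendsto (fun n => P.real ((T n) ⁻¹' A ∩ B)) atTop (𝓝 (P.real A * P.real B)) := by
  induction B, hB using MeasurableSpace.induction_on_inter hgen hC with
  | empty => simp
  | basic t ht => exact h t ht
  | compl t ht ih =>
    have h1 : ∀ n, P.real ((T n) ⁻¹' A ∩ tᶜ) = P.real A - P.real ((T n) ⁻¹' A ∩ t) := by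
      intro n
      have h2 : (T n) ⁻¹' A ∩ tᶜ = (T n) ⁻¹' A \ ((T n) ⁻¹' A ∩ t) := by
        ext x; simp only [Set.mem_inter_iff, Set.mem_preimage, Set.mem_compl_iff, Set.mem_sdiff]
        tauto
      rw [h2, measureReal_sdiff Set.inter_subset_left (((hT n).measurable hA).inter ht)]
      congr 1
      rw [measureReal_def, (hT n).measure_preimage hA.nullMeasurableSet]; rfl
    simp_rw [h1]
    rw [probReal_compl_eq_one_sub ht, mul_sub, mul_one]
    exact tendsto_const_nhds.sub ih
  | iUnion f hd hf ih =>
    have h1 : ∀ n, P.real ((T n) ⁻¹' A ∩ (⋃ i, f i)) = ∑' i, P.real ((T n) ⁻¹' A ∩ f i) := by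
      intro n
      rw [Set.inter_iUnion, measureReal_def, measure_iUnion,
        ENNReal.tsum_toReal_eq (fun i => measure_ne_top _ _)]
      · rfl
      · intro i j hij
        exact (hd hij).mono Set.inter_subset_right Set.inter_subset_right
      · intro i; exact ((hT n).measurable hA).inter (hf i)
    have h2 : P.real (⋃ i, f i) = ∑' i, P.real (f i) := by
      rw [measureReal_def, measure_iUnion hd hf, ENNReal.tsum_toReal_eq (fun i => measure_ne_top _ _)]
      rfl
    have hsum : Summable fun i => P.real (f i) := by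
      refine ENNReal.summable_toReal ?_
      rw [← measure_iUnion hd hf]
      exact measure_ne_top _ _
    simp_rw [h1]
    rw [h2, ← tsum_mul_left]
    refine tendsto_tsum_of_dominated_convergence hsum ih (Eventually.of_forall fun n i => ?_)
    rw [Real.norm_eq_abs, abs_of_nonneg measureReal_nonneg]
    exact measureReal_mono Set.inter_subset_right

/-! ### The fair coin measure -/

/-- The fair coin. -/
noncomputable def coin : Measure Bool := (2⁻¹ : ℝ≥0∞) • Measure.count

lemma coin_singleton (b : Bool) : coin {b} = 2⁻¹ := by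
  simp [coin]

instance : IsProbabilityMeasure coin := by
  constructor
  have : (Set.univ : Set Bool) = {true, false} := by ext b; cases b <;> simp
  unfold coin
  rw [Measure.smul_apply, Measure.count_univ]
  simp
  exact ENNReal.inv_mul_cancel (by norm_num) (by norm_num)

/-- The fair coin measure on the Cantor space. -/
noncomputable def coinMeasure : Measure (ℕ → Bool) := Measure.infinitePi (fun _ : ℕ => coin)

instance : IsProbabilityMeasure coinMeasure := by
  unfold coinMeasure; infer_instance

/-- The one-sided shift. -/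
def shift (x : ℕ → Bool) : ℕ → Bool := fun n => x (n + 1)

lemma shift_iterate (n : ℕ) (x : ℕ → Bool) (i : ℕ) : (shift^[n]) x i = x (i + n) := by
  induction n generalizing x with
  | zero => rfl
  | succ k ih =>
    rw [Function.iterate_succ_apply, ih]
    unfold shift
    congr 1

lemma measurable_shift : Measurable shift :=
  measurable_pi_lambda _ fun n => measurable_pi_apply (n + 1)

lemma continuous_shift : Continuous shift :=
  continuous_pi fun n => continuous_apply (n + 1)

lemma box_eq (s : Finset ℕ) (t : ℕ → Set Bool) (ht : ∀ i, MeasurableSet (t i)) :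
    coinMeasure (Set.pi s t) = ∏ i ∈ s, coin (t i) :=
  Measure.infinitePi_pi _ fun i _ => ht i

lemma preimage_box (n : ℕ) (s : Finset ℕ) (t : ℕ → Set Bool) :
    (shift^[n]) ⁻¹' (Set.pi s t) =
      Set.pi (s.map (addRightEmbedding n)) (fun i => t (i - n)) := by
  ext x
  simp only [Set.mem_preimage, Set.mem_pi, Finset.mem_coe, Finset.mem_map,
    addRightEmbedding_apply, shift_iterate]
  constructor
  · rintro h i ⟨j, hj, rfl⟩
    simpa using h j hj
  · intro h i hi
    simpa using h (i + n) ⟨i, hi, rfl⟩

lemma measurePreserving_shift_iterate (n : ℕ) :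
    MeasurePreserving (shift^[n]) coinMeasure coinMeasure := by
  have h1 : MeasurePreserving shift coinMeasure coinMeasure := by
    refine ⟨measurable_shift, ?_⟩
    refine Measure.eq_infinitePi (fun _ => coin) fun s t ht => ?_
    rw [Measure.map_apply measurable_shift (MeasurableSet.pi s.countable_toSet fun i _ => ht i)]
    have h2 := preimage_box 1 s t
    rw [Function.iterate_one] at h2
    rw [h2, box_eq _ _ (fun i => ht _), Finset.prod_map]
    simp
  exact h1.iterate n

lemma mixing_boxes (s s' : Finset ℕ) (t t' : ℕ → Set Bool) (ht : ∀ i, MeasurableSet (t i))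
    (ht' : ∀ i, MeasurableSet (t' i)) :
    ∀ᶠ n in atTop, coinMeasure ((shift^[n]) ⁻¹' (Set.pi s t) ∩ Set.pi s' t') =
      coinMeasure (Set.pi s t) * coinMeasure (Set.pi s' t') := by
  obtain ⟨N, hN⟩ := s'.exists_nat_subset_range
  filter_upwards [eventually_ge_atTop N] with n hn
  have hdisj : Disjoint (s.map (addRightEmbedding n)) s' := by
    rw [Finset.disjoint_left]
    intro i hi hi'
    obtain ⟨j, _, rfl⟩ := Finset.mem_map.mp hi
    have := Finset.mem_range.mp (hN hi')
    simp only [addRightEmbedding_apply] at this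
    omega
  have hset : (shift^[n]) ⁻¹' (Set.pi s t) ∩ Set.pi s' t' =
      Set.pi ((s.map (addRightEmbedding n)) ∪ s' : Finset ℕ)
        (fun i => if i ∈ s' then t' i else t (i - n)) := by
    rw [preimage_box]
    ext x
    simp only [Set.mem_inter_iff, Set.mem_pi, Finset.mem_coe, Finset.mem_union]
    constructor
    · rintro ⟨h1, h2⟩ i hi
      by_cases his : i ∈ s'
      · rw [if_pos his]; exact h2 i his
      · rw [if_neg his]; exact h1 i (hi.resolve_right his)
    · intro h
      constructor
      · intro i hi
        have h1 := h i (Or.inl hi)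
        rwa [if_neg (Finset.disjoint_left.mp hdisj hi)] at h1
      · intro i hi
        have h1 := h i (Or.inr hi)
        rwa [if_pos hi] at h1
  rw [hset, box_eq _ _ (fun i => by split_ifs; exacts [ht' i, ht _]), Finset.prod_union hdisj,
    box_eq _ _ ht, box_eq _ _ ht', Finset.prod_map]
  congr 1
  · refine Finset.prod_congr rfl fun i hi => ?_
    have : i + n ∉ s' := Finset.disjoint_left.mp hdisj (Finset.mem_map.mpr ⟨i, hi, rfl⟩)
    simp [this]
  · refine Finset.prod_congr rfl fun i hi => ?_
    simp [hi]

/-- The shift is mixing. -/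
theorem shift_mixing (A B : Set (ℕ → Bool)) (hA : MeasurableSet A) (hB : MeasurableSet B) :
    Tendsto (fun n : ℕ => coinMeasure ((shift^[n]) ⁻¹' A ∩ B)) atTop
      (𝓝 (coinMeasure A * coinMeasure B)) := by
  have hC := isPiSystem_squareCylinders (ι := ℕ) (α := fun _ => Bool)
    (C := fun _ => {s : Set Bool | MeasurableSet s}) (fun _ => MeasurableSpace.isPiSystem_measurableSet)
    (by simp)
  have hgen : (MeasurableSpace.pi : MeasurableSpace (ℕ → Bool)) = _ :=
    (generateFrom_squareCylinders (ι := ℕ) (α := fun _ => Bool)).symm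
  have key : Tendsto (fun n : ℕ => coinMeasure.real ((shift^[n]) ⁻¹' A ∩ B)) atTop
      (𝓝 (coinMeasure.real A * coinMeasure.real B)) := by
    refine tendsto_left_of_piSystem coinMeasure (fun n => shift^[n])
      measurePreserving_shift_iterate _ hC hgen B hB ?_ A hA
    rintro A' ⟨s, t, ht, rfl⟩
    refine tendsto_right_of_piSystem coinMeasure (fun n => shift^[n])
      measurePreserving_shift_iterate _ hC hgen _ ?_ ?_ B hB
    · exact MeasurableSet.pi s.countable_toSet fun i _ => by simp
    rintro B' ⟨s', t', ht', rfl⟩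
    refine Tendsto.congr' ?_ tendsto_const_nhds
    filter_upwards [mixing_boxes s s' t t' (fun i => by simp) (fun i => by simp)] with n hn
    rw [measureReal_def coinMeasure (_ ∩ _), hn, ENNReal.toReal_mul]
    rfl
  rw [← ENNReal.tendsto_toReal_iff (fun n => measure_ne_top _ _)
    (ENNReal.mul_ne_top (measure_ne_top _ _) (measure_ne_top _ _)), ENNReal.toReal_mul]
  exact key

end Pool.Agent.Lib.MP_0638d8_an
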