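import Mathlib
import Pool.Agent.Lib.MP_0638d8_an.Defs
import Pool.Agent.Lib.MP_0638d8_an.Metric
import Pool.Agent.Lib.MP_0638d8_an.Bounds
import Pool.Agent.Lib.MP_0638d8_an.Shift

/-!
# The transfinite diameter of iterates under a mixing map need not converge

There are a compact metric space `S` with its Borel σ-algebra, a Borel probability measure `P` charging
every ball and a continuous `P`-mixing map `ψ` sending measurable sets to measurable sets, such that `S`
has transfinite diameter at least `1/4`, while compact sets `A` of measure arbitrarily close to `1` have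
`ρ(ψⁿA) = ess ρ(ψⁿA) = 0` for every `n`.
-/

open scoped BigOperators ENNReal Topology
open MeasureTheory Filter PiNat
open Pool.Agent.Lib.MP_0638d8_an

namespace Pool.Agent.Lib.MP_0638d8_an.Main

/-- The fair coin measure, seen on `X`. -/
noncomputable def P : Measure X := coinMeasure

instance : IsProbabilityMeasure P := inferInstanceAs (IsProbabilityMeasure coinMeasure)

/-- The shift, seen on `X`. -/
def psi : X → X := shift

lemma cylinder_measure_pos (x : ℕ → Bool) (n : ℕ) : 0 < coinMeasure (cylinder x n) := by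
  rw [cylinder_eq_pi, box_eq _ _ (fun i => MeasurableSet.singleton _)]
  simp only [coin_singleton]
  rw [Finset.prod_const]
  exact pos_iff_ne_zero.mpr (pow_ne_zero _ (by simp))

lemma ballsPositive : BallsPositive P := by
  intro x r hr
  refine ⟨measurableSet_ball, ?_⟩
  obtain ⟨n, hn⟩ : ∃ n : ℕ, (1 / 2 : ℝ) ^ n < r := exists_pow_lt_of_lt_one hr one_half_lt_one
  refine lt_of_lt_of_le (cylinder_measure_pos x n) (measure_mono fun (y : X) hy => ?_)
  show dist y x < r
  rw [dist_comm, dist_eq]
  exact (gdist_le_of_mem_cylinder hy).trans_lt hn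

lemma isMixing : IsMixing P psi := by
  refine ⟨fun A hA => ⟨measurable_shift hA, ?_⟩, fun A B hA hB => shift_mixing A B hA hB⟩
  exact (measurePreserving_shift_iterate 1).measure_preimage hA.nullMeasurableSet

/-- Put the symbol `b` in front of the sequence `y`. -/
def cons (b : Bool) (y : ℕ → Bool) : ℕ → Bool := fun n => Nat.casesOn n b y

lemma shift_cons (b : Bool) (y : ℕ → Bool) : shift (cons b y) = y := rfl

lemma cons_shift (x : ℕ → Bool) : cons (x 0) (shift x) = x := by
  funext n
  cases n <;> rfl

lemma measurable_cons (b : Bool) : Measurable (cons b) := by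
  refine measurable_pi_lambda _ fun n => ?_
  cases n with
  | zero => exact measurable_const
  | succ k => exact measurable_pi_apply k

lemma measurableSet_image (B : Set (ℕ → Bool)) (hB : MeasurableSet B) :
    MeasurableSet (shift '' B) := by
  have h : shift '' B = (cons true) ⁻¹' B ∪ (cons false) ⁻¹' B := by
    ext y
    simp only [Set.mem_image, Set.mem_union, Set.mem_preimage]
    constructor
    · rintro ⟨x, hx, rfl⟩
      rw [← cons_shift x] at hx
      cases hx0 : x 0
      · right; rw [hx0] at hx; exact hx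
      · left; rw [hx0] at hx; exact hx
    · rintro (h | h)
      · exact ⟨_, h, rfl⟩
      · exact ⟨_, h, rfl⟩
  rw [h]
  exact (measurable_cons true hB).union (measurable_cons false hB)

/-- The compact set `A_m`: for every `j` one of the coordinates `j + 2i + 1`, `i < j + m`, is `1`. -/
def setA (m : ℕ) : Set (ℕ → Bool) := {x | ∀ j, ∃ i < j + m, x (j + (2 * i + 1)) = true}

/-- The bad event at time `j`. -/
def bad (m j : ℕ) : Set (ℕ → Bool) := {x | ∀ i < j + m, x (j + (2 * i + 1)) = false}

lemma bad_eq (m j : ℕ) : bad m j =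
    Set.pi ((Finset.range (j + m)).image fun i => j + (2 * i + 1) : Finset ℕ)
      (fun _ => {false}) := by
  ext x
  simp only [bad, Set.mem_ofPred_eq, Set.mem_pi, Finset.mem_coe, Finset.mem_image,
    Finset.mem_range, Set.mem_singleton_iff]
  constructor
  · rintro h _ ⟨i, hi, rfl⟩; exact h i hi
  · intro h i hi; exact h _ ⟨i, hi, rfl⟩

lemma bad_measure (m j : ℕ) : coinMeasure (bad m j) = (2⁻¹ : ℝ≥0∞) ^ (j + m) := by
  rw [bad_eq, box_eq _ _ (fun i => MeasurableSet.singleton _)]
  simp only [coin_singleton]
  rw [Finset.prod_const, Finset.card_image_of_injective, Finset.card_range]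
  intro a b hab
  simp only at hab
  omega

lemma isClopen_bad (m j : ℕ) : IsClopen (bad m j) := by
  rw [bad_eq]
  constructor
  · exact isClosed_set_pi fun _ _ => isClosed_discrete _
  · exact isOpen_set_pi (Finset.finite_toSet _) fun _ _ => isOpen_discrete _

lemma setA_compl (m : ℕ) : (setA m)ᶜ = ⋃ j, bad m j := by
  ext x
  simp only [setA, bad, Set.mem_compl_iff, Set.mem_ofPred_eq, Set.mem_iUnion, not_forall,
    not_exists, not_and, Bool.not_eq_true]

lemma isClosed_setA (m : ℕ) : IsClosed (setA m) := by
  rw [← isOpen_compl_iff, setA_compl]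
  exact isOpen_iUnion fun j => (isClopen_bad m j).isOpen

lemma setA_compl_measure (m : ℕ) : coinMeasure (setA m)ᶜ ≤ 2 * (2⁻¹ : ℝ≥0∞) ^ m := by
  rw [setA_compl]
  refine (measure_iUnion_le _).trans (le_of_eq ?_)
  simp_rw [bad_measure, pow_add]
  rw [ENNReal.tsum_mul_right, ENNReal.tsum_geometric, ENNReal.one_sub_inv_two, inv_inv]

lemma not_thin_of_mem {m n : ℕ} {y : ℕ → Bool} (hy : y ∈ (shift^[n]) '' setA m) :
    ¬ Thin y (2 * (n + m)) := by
  obtain ⟨x, hx, rfl⟩ := hy
  obtain ⟨i, hi, hxi⟩ := hx n
  intro h
  have h1 := h (2 * i + 1) (by omega) (by omega)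
  rw [shift_iterate, add_comm (2 * i + 1) n] at h1
  rw [h1] at hxi
  exact absurd hxi (by simp)

/-- **Main theorem.** -/
theorem main :
    ∃ (S : Type) (_ : MetricSpace S) (_ : MeasurableSpace S) (P : Measure S) (ψ : S → S),
      CompactSpace S ∧ BorelSpace S ∧ IsProbabilityMeasure P ∧ BallsPositive P ∧
      Continuous ψ ∧ IsMixing P ψ ∧ (∀ B, MeasurableSet B → MeasurableSet (ψ '' B)) ∧
      1 / 4 ≤ transfiniteDiameter (Set.univ : Set S) ∧
      transfiniteDiameter (Set.univ : Set S) ≤ 1 ∧
      ∀ ε : ℝ≥0∞, 0 < ε → ∃ A : Set S, IsCompact A ∧ P Aᶜ < ε ∧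
        (∀ n : ℕ, transfiniteDiameter (ψ^[n] '' A) = 0) ∧
        (∀ n : ℕ, essTransfiniteDiameter P (ψ^[n] '' A) = 0) := by
  refine ⟨X, inferInstance, inferInstance, P, psi, inferInstance, inferInstance, inferInstance,
    ballsPositive, continuous_shift, isMixing, measurableSet_image, quarter_le, ?_, ?_⟩
  · refine (iInf₂_le 2 le_rfl).trans (iSup_le fun p => iSup_le fun _ => ?_)
    refine Finset.prod_le_one' fun i _ => Finset.prod_le_one' fun j _ => ?_
    exact ENNReal.rpow_le_one (edist_le_one _ _) (by norm_num)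
  · intro ε hε
    have hlim : Tendsto (fun m : ℕ => 2 * (2⁻¹ : ℝ≥0∞) ^ m) atTop (𝓝 (2 * 0)) :=
      ENNReal.Tendsto.const_mul (ENNReal.tendsto_pow_atTop_nhds_zero_of_lt_one (by simp))
        (Or.inr (by simp))
    rw [mul_zero] at hlim
    obtain ⟨m, hm⟩ := (hlim.eventually_lt_const hε).exists
    have hzero : ∀ n : ℕ, transfiniteDiameter (S := X) (psi^[n] '' setA m) = 0 := by
      intro n
      exact transfiniteDiameter_eq_zero _ (2 * (n + m)) fun y hy => not_thin_of_mem hy
    refine ⟨setA m, (isClosed_setA m).isCompact, (setA_compl_measure m).trans_lt hm, hzero, ?_⟩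
    intro n
    refine le_antisymm ?_ zero_le
    rw [← hzero n]
    refine essTransfiniteDiameter_le P ?_
    have hmeas : ∀ n : ℕ, ∀ B : Set X, MeasurableSet B → MeasurableSet (psi^[n] '' B) := by
      intro n
      induction n with
      | zero => intro B hB; simpa using hB
      | succ k ih =>
        intro B hB
        rw [Function.iterate_succ', Set.image_comp]
        exact measurableSet_image _ (ih B hB)
    exact hmeas n _ (isClosed_setA m).measurableSet

end Pool.Agent.Lib.MP_0638d8_an.Main
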